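import Pool.Agent.H11ST.Lower
open MeasureTheory Metric Set Filter Topology
open scoped ENNReal NNReal

/-!
Project P5: five points of a connected set are joined by a network with three nodes.
-/

namespace H11ST
namespace P5
set_option linter.unusedSectionVars false
variable {V : Type*} [NormedAddCommGroup V] [InnerProductSpace ℝ V] [MeasurableSpace V] [BorelSpace V]

/-- the network of type `a b | m | c d` -/
def N5 (a b m c d : V) (T : ℝ) : Prop :=
  ∃ z w z', dist a z + dist b z + dist z w + dist m w + dist w z' + dist c z' + dist d z' ≤ T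

/-- five points can be joined -/
def J5 (p : Fin 5 → V) (T : ℝ) : Prop :=
  ∃ σ : Equiv.Perm (Fin 5), N5 (p (σ 0)) (p (σ 1)) (p (σ 2)) (p (σ 3)) (p (σ 4)) T

theorem J5.perm {p : Fin 5 → V} {T : ℝ} (τ : Equiv.Perm (Fin 5)) (h : J5 (p ∘ τ) T) : J5 p T := by
  obtain ⟨σ, hσ⟩ := h
  exact ⟨σ.trans τ, hσ⟩

theorem N5.move {a b m c d a' b' m' c' d' : V} {T : ℝ} (h : N5 a b m c d T) :
    N5 a' b' m' c' d' (T + (dist a' a + dist b' b + dist m' m + dist c' c + dist d' d)) := by
  obtain ⟨z, w, z', hz⟩ := h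
  refine ⟨z, w, z', ?_⟩
  linarith [dist_triangle a' a z, dist_triangle b' b z, dist_triangle m' m w,
    dist_triangle c' c z', dist_triangle d' d z']

theorem J5.move {p q : Fin 5 → V} {T : ℝ} (h : J5 p T) : J5 q (T + ∑ i, dist (q i) (p i)) := by
  obtain ⟨σ, hσ⟩ := h
  refine ⟨σ, ?_⟩
  have h1 : ∑ i, dist (q i) (p i) = ∑ i, dist (q (σ i)) (p (σ i)) :=
    (Equiv.sum_comp σ fun i => dist (q i) (p i)).symm
  rw [h1, Fin.sum_univ_five]
  exact hσ.move

theorem J5.mono {p : Fin 5 → V} {T T' : ℝ} (h : J5 p T) (hT : T ≤ T') : J5 p T' := by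
  obtain ⟨σ, z, w, z', hz⟩ := h
  exact ⟨σ, z, w, z', hz.trans hT⟩

theorem of_N5 {a b m c d : V} {T : ℝ} (h : N5 a b m c d T) : J5 ![a, b, m, c, d] T :=
  ⟨1, h⟩

theorem five {η : ℝ} {U : Set V} {s : ℝ} (h : Chain η U s) :
    ∀ p : Fin 5 → V, (∀ i, p i ∈ U) → J5 p (s + 3 * η) := by
  classical
  induction h with
  | base O c hc0 hc hη =>
    intro p hp
    refine ⟨1, p 0, p 0, p 0, ?_⟩
    simp only [Equiv.Perm.coe_one, id_eq, dist_self]
    linarith [hc _ (hp 1) _ (hp 0), hc _ (hp 2) _ (hp 0), hc _ (hp 3) _ (hp 0),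
      hc _ (hp 4) _ (hp 0)]
  | step U s O c hU w hwU hwO hc0 hc hη ih =>
    have hs := hU.nonneg
    intro p hp
    -- sort
    set key : Fin 5 → ℕ := fun i => if p i ∈ U then 0 else 1 with hkey
    set σ := Tuple.sort key with hσ
    have hmono : Monotone (key ∘ σ) := Tuple.monotone_sort key
    refine J5.perm σ ?_
    set q : Fin 5 → V := p ∘ σ with hq
    have hqm : ∀ i j, i ≤ j → q j ∈ U → q i ∈ U := by
      intro i j hij hj
      have h1 := hmono hij
      simp only [Function.comp_apply, hkey] at h1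
      have h2 : p (σ j) ∈ U := hj
      rw [if_pos h2] at h1
      by_contra hi
      have h3 : p (σ i) ∉ U := hi
      rw [if_neg h3] at h1
      omega
    have hqO : ∀ i, q i ∉ U → q i ∈ O := fun i hi => (hp (σ i)).resolve_left hi
    clear_value q
    by_cases h4 : q 4 ∈ U
    · exact (ih q fun i => hqm i 4 (Fin.le_last i) h4).mono (by linarith)
    have o4 := hqO 4 h4
    by_cases h3 : q 3 ∈ U
    · -- four points in U
      have h2 := hqm 2 3 (by decide) h3
      have h1 := hqm 1 3 (by decide) h3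
      have h0 := hqm 0 3 (by decide) h3
      have k := ih ![q 0, q 1, q 2, q 3, w] (by
        intro i
        fin_cases i
        · exact h0
        · exact h1
        · exact h2
        · exact h3
        · exact hwU)
      have k2 := k.move (q := q)
      rw [Fin.sum_univ_five] at k2
      simp only [Matrix.cons_val_zero, Matrix.cons_val_one, Matrix.cons_val, dist_self] at k2
      exact k2.mono (by linarith [hc _ o4 _ hwO])
    have o3 := hqO 3 h3
    by_cases h2 : q 2 ∈ U
    · have h1 := hqm 1 2 (by decide) h2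
      have h0 := hqm 0 2 (by decide) h2
      have e3 := hc _ o3 _ hwO
      have e4 := hc _ o4 _ hwO
      rcases hU.four _ h0 _ h1 _ h2 _ hwU with ⟨z, z', hz⟩ | ⟨z, z', hz⟩ | ⟨z, z', hz⟩
      · refine ⟨1, z, z', w, ?_⟩
        simp only [Equiv.Perm.coe_one, id_eq]
        rw [dist_comm z' w]
        linarith
      · refine ⟨Equiv.swap 1 2, z, z', w, ?_⟩
        have a0 : (Equiv.swap (1 : Fin 5) 2) 0 = 0 := by decide
        have a1 : (Equiv.swap (1 : Fin 5) 2) 1 = 2 := by decide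
        have a2 : (Equiv.swap (1 : Fin 5) 2) 2 = 1 := by decide
        have a3 : (Equiv.swap (1 : Fin 5) 2) 3 = 3 := by decide
        have a4 : (Equiv.swap (1 : Fin 5) 2) 4 = 4 := by decide
        rw [a0, a1, a2, a3, a4, dist_comm z' w]
        linarith
      · refine ⟨Equiv.swap 0 2, z', z, w, ?_⟩
        have a0 : (Equiv.swap (0 : Fin 5) 2) 0 = 2 := by decide
        have a1 : (Equiv.swap (0 : Fin 5) 2) 1 = 1 := by decide
        have a2 : (Equiv.swap (0 : Fin 5) 2) 2 = 0 := by decide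
        have a3 : (Equiv.swap (0 : Fin 5) 2) 3 = 3 := by decide
        have a4 : (Equiv.swap (0 : Fin 5) 2) 4 = 4 := by decide
        rw [a0, a1, a2, a3, a4, dist_comm z w, dist_comm z' z]
        linarith
    have o2 := hqO 2 h2
    have e2 := hc _ o2 _ hwO
    have e3 := hc _ o3 _ hwO
    have e4 := hc _ o4 _ hwO
    by_cases h1 : q 1 ∈ U
    · have h0 := hqm 0 1 (by decide) h1
      obtain ⟨z, hz⟩ := hU.three _ h0 _ h1 _ hwU
      refine ⟨1, z, w, w, ?_⟩
      simp only [Equiv.Perm.coe_one, id_eq, dist_self]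
      rw [dist_comm z w]
      linarith
    have o1 := hqO 1 h1
    have e1 := hc _ o1 _ hwO
    by_cases h0 : q 0 ∈ U
    · refine ⟨1, w, w, w, ?_⟩
      simp only [Equiv.Perm.coe_one, id_eq, dist_self]
      linarith [hU.two _ h0 _ hwU]
    · have e0 := hc _ (hqO 0 h0) _ hwO
      have f1 := hc _ o1 _ (hqO 0 h0)
      have f2 := hc _ o2 _ (hqO 0 h0)
      have f3 := hc _ o3 _ (hqO 0 h0)
      have f4 := hc _ o4 _ (hqO 0 h0)
      refine ⟨1, q 0, q 0, q 0, ?_⟩
      simp only [Equiv.Perm.coe_one, id_eq, dist_self]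
      linarith

/-- dual lower bound -/
theorem N5_lower {a b m c d : V} {T : ℝ} (h : N5 a b m c d T) {ea eb em ec ed : V}
    (h1 : ‖ea‖ ≤ 1) (h2 : ‖eb‖ ≤ 1) (h3 : ‖em‖ ≤ 1) (h4 : ‖ec‖ ≤ 1) (h5 : ‖ed‖ ≤ 1)
    (hsum : ea + eb + em + ec + ed = 0) (h6 : ‖ea + eb‖ ≤ 1) (h7 : ‖ec + ed‖ ≤ 1) :
    inner ℝ ea a + inner ℝ eb b + inner ℝ em m + inner ℝ ec c + inner ℝ ed d ≤ T := by
  obtain ⟨z, w, z', hz⟩ := h
  have i1 := inner_le_dist h1 a z
  have i2 := inner_le_dist h2 b z
  have i3 := inner_le_dist h3 m w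
  have i4 := inner_le_dist h4 c z'
  have i5 := inner_le_dist h5 d z'
  have i6 := inner_le_dist h6 z w
  have i7 := inner_le_dist h7 z' w
  rw [inner_sub_right] at i1 i2 i3 i4 i5 i6 i7
  have i8 : inner ℝ ea w + inner ℝ eb w + inner ℝ em w + inner ℝ ec w + inner ℝ ed w = 0 := by
    rw [← inner_add_left, ← inner_add_left, ← inner_add_left, ← inner_add_left, hsum,
      inner_zero_left]
  rw [inner_add_left, inner_add_left] at i6 i7
  rw [dist_comm z' w] at i7
  linarith

/-- lower bound for the length of a connected set through five points -/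
theorem five_lower [ProperSpace V] {X : Set V} (hX : IsPreconnected X) (hcl : IsClosed X)
    (hfin : μH[1] X ≠ ∞) {p : Fin 5 → V} (hp : ∀ i, p i ∈ X) {L : ℝ}
    (hL : ∀ T, J5 p T → L ≤ T) : L ≤ (μH[1] X).toReal := by
  have hcomp := compact_of_conn hX hcl ⟨p 0, hp 0⟩ hfin
  refine le_of_forall_pos_le_add fun η hη => ?_
  obtain ⟨U, s, hU, hXU, hs⟩ := exists_chain hcomp hX ⟨p 0, hp 0⟩ hfin
    (show (0 : ℝ) < η / 4 by linarith)
  have h1 := hL _ (five hU p fun i => hXU (hp i))
  linarith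

end P5
end H11ST
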