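import Pool.Agent.Helper94.P5.Sheet
import Pool.Agent.Helper94.P5.Five
open MeasureTheory Metric Set Filter Topology
open scoped ENNReal NNReal

/-!
The 15 dual certificates and the lower bound for the five points of the sheet P5.
-/

namespace H11ST
namespace P5

variable {d : ℕ} {e f : E d}

theorem pt_add (x y x' y' : ℝ) : pt e f x y + pt e f x' y' = pt e f (x + x') (y + y') := by
  rw [pt, pt, pt, vec_add, mul_add]

theorem pt_zero : pt e f 0 0 = 0 := by rw [pt, mul_zero, vec_zero]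

theorem inner_pt (he : ‖e‖ = 1) (hf : ‖f‖ = 1) (hef : inner ℝ e f = (0 : ℝ)) (x y x' y' : ℝ) :
    inner ℝ (pt e f x y) (pt e f x' y') = 3 * x * x' + y * y' := by
  rw [pt, pt, inner_vec he hf hef]
  linear_combination x * x' * sq3

theorem nle (he : ‖e‖ = 1) (hf : ‖f‖ = 1) (hef : inner ℝ e f = (0 : ℝ)) {x y : ℝ}
    (h : 3 * x ^ 2 + y ^ 2 ≤ 1) : ‖pt e f x y‖ ≤ 1 := by
  refine norm_vec_le_one he hf hef ?_
  have h1 : (√3 * x) ^ 2 = 3 * x ^ 2 := by linear_combination x ^ 2 * sq3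
  rw [h1]
  exact h

theorem P0 : P e f 0 = pt e f 0 1 := rfl
theorem P1 : P e f 1 = pt e f (11291 / 20000) (4191 / 20000) := rfl
theorem P2 : P e f 2 = pt e f (27 / 80) (-(4057 / 5000)) := rfl
theorem P3 : P e f 3 = pt e f (-(27 / 80)) (-(4057 / 5000)) := rfl
theorem P4 : P e f 4 = pt e f (-(11291 / 20000)) (4191 / 20000) := rfl

/-- the network type `a b | m | c d` costs at least `2263 / 500` -/
def R (e f : E d) (a b m c k : Fin 5) : Prop :=
  ∀ T, N5 (P e f a) (P e f b) (P e f m) (P e f c) (P e f k) T → 2263 / 500 ≤ T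

theorem N5.sw1 {a b m c k : E d} {T : ℝ} (h : N5 a b m c k T) : N5 b a m c k T := by
  obtain ⟨z, w, z', hz⟩ := h
  exact ⟨z, w, z', by linarith⟩

theorem N5.sw2 {a b m c k : E d} {T : ℝ} (h : N5 a b m c k T) : N5 a b m k c T := by
  obtain ⟨z, w, z', hz⟩ := h
  exact ⟨z, w, z', by linarith⟩

theorem N5.sw3 {a b m c k : E d} {T : ℝ} (h : N5 a b m c k T) : N5 c k m a b T := by
  obtain ⟨z, w, z', hz⟩ := h
  exact ⟨z', w, z, by rw [dist_comm z' w, dist_comm w z]; linarith⟩

theorem c12034 (he : ‖e‖ = 1) (hf : ‖f‖ = 1) (hef : inner ℝ e f = (0 : ℝ)) :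
    R e f 1 2 0 3 4 := by
  intro T h
  have k := N5_lower h
    (ea := pt e f (1 / 2) (1 / 2))
    (eb := pt e f 0 (-1)) (em := pt e f 0 1)
    (ec := pt e f 0 (-1)) (ed := pt e f (-(1 / 2)) (1 / 2))
    (nle he hf hef (by norm_num)) (nle he hf hef (by norm_num)) (nle he hf hef (by norm_num))
    (nle he hf hef (by norm_num)) (nle he hf hef (by norm_num))
    (by rw [pt_add, pt_add, pt_add, pt_add]; norm_num [pt_zero])
    (by rw [pt_add]; exact nle he hf hef (by norm_num))
    (by rw [pt_add]; exact nle he hf hef (by norm_num))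
  simp only [P0, P1, P2, P3, P4, inner_pt he hf hef] at k
  norm_num at k
  linarith

theorem c13024 (he : ‖e‖ = 1) (hf : ‖f‖ = 1) (hef : inner ℝ e f = (0 : ℝ)) :
    R e f 1 3 0 2 4 := by
  intro T h
  have k := N5_lower h
    (ea := pt e f (1 / 2) (3 / 10))
    (eb := pt e f (-(2 / 5)) (-(7 / 10))) (em := pt e f 0 (4 / 5))
    (ec := pt e f (2 / 5) (-(7 / 10))) (ed := pt e f (-(1 / 2)) (3 / 10))
    (nle he hf hef (by norm_num)) (nle he hf hef (by norm_num)) (nle he hf hef (by norm_num))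
    (nle he hf hef (by norm_num)) (nle he hf hef (by norm_num))
    (by rw [pt_add, pt_add, pt_add, pt_add]; norm_num [pt_zero])
    (by rw [pt_add]; exact nle he hf hef (by norm_num))
    (by rw [pt_add]; exact nle he hf hef (by norm_num))
  simp only [P0, P1, P2, P3, P4, inner_pt he hf hef] at k
  norm_num at k
  linarith

theorem c14023 (he : ‖e‖ = 1) (hf : ‖f‖ = 1) (hef : inner ℝ e f = (0 : ℝ)) :
    R e f 1 4 0 2 3 := by
  intro T h
  have k := N5_lower h
    (ea := pt e f (11 / 20) 0)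
    (eb := pt e f (-(11 / 20)) 0) (em := pt e f 0 1)
    (ec := pt e f (1 / 2) (-(1 / 2))) (ed := pt e f (-(1 / 2)) (-(1 / 2)))
    (nle he hf hef (by norm_num)) (nle he hf hef (by norm_num)) (nle he hf hef (by norm_num))
    (nle he hf hef (by norm_num)) (nle he hf hef (by norm_num))
    (by rw [pt_add, pt_add, pt_add, pt_add]; norm_num [pt_zero])
    (by rw [pt_add]; exact nle he hf hef (by norm_num))
    (by rw [pt_add]; exact nle he hf hef (by norm_num))
  simp only [P0, P1, P2, P3, P4, inner_pt he hf hef] at k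
  norm_num at k
  linarith

theorem c02134 (he : ‖e‖ = 1) (hf : ‖f‖ = 1) (hef : inner ℝ e f = (0 : ℝ)) :
    R e f 0 2 1 3 4 := by
  intro T h
  have k := N5_lower h
    (ea := pt e f (-(9 / 50)) (47 / 50))
    (eb := pt e f (9 / 50) (-(23 / 25))) (em := pt e f (27 / 50) (13 / 50))
    (ec := pt e f (-(3 / 25)) (-(23 / 25))) (ed := pt e f (-(21 / 50)) (16 / 25))
    (nle he hf hef (by norm_num)) (nle he hf hef (by norm_num)) (nle he hf hef (by norm_num))
    (nle he hf hef (by norm_num)) (nle he hf hef (by norm_num))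
    (by rw [pt_add, pt_add, pt_add, pt_add]; norm_num [pt_zero])
    (by rw [pt_add]; exact nle he hf hef (by norm_num))
    (by rw [pt_add]; exact nle he hf hef (by norm_num))
  simp only [P0, P1, P2, P3, P4, inner_pt he hf hef] at k
  norm_num at k
  linarith

theorem c03124 (he : ‖e‖ = 1) (hf : ‖f‖ = 1) (hef : inner ℝ e f = (0 : ℝ)) :
    R e f 0 3 1 2 4 := by
  intro T h
  have k := N5_lower h
    (ea := pt e f 0 1)
    (eb := pt e f (-(3 / 10)) (-(4 / 5))) (em := pt e f (1 / 2) (1 / 5))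
    (ec := pt e f (3 / 10) (-(7 / 10))) (ed := pt e f (-(1 / 2)) (3 / 10))
    (nle he hf hef (by norm_num)) (nle he hf hef (by norm_num)) (nle he hf hef (by norm_num))
    (nle he hf hef (by norm_num)) (nle he hf hef (by norm_num))
    (by rw [pt_add, pt_add, pt_add, pt_add]; norm_num [pt_zero])
    (by rw [pt_add]; exact nle he hf hef (by norm_num))
    (by rw [pt_add]; exact nle he hf hef (by norm_num))
  simp only [P0, P1, P2, P3, P4, inner_pt he hf hef] at k
  norm_num at k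
  linarith

theorem c04123 (he : ‖e‖ = 1) (hf : ‖f‖ = 1) (hef : inner ℝ e f = (0 : ℝ)) :
    R e f 0 4 1 2 3 := by
  intro T h
  have k := N5_lower h
    (ea := pt e f (3 / 20) (19 / 20))
    (eb := pt e f (-(11 / 20)) (-(3 / 10))) (em := pt e f (11 / 20) (3 / 10))
    (ec := pt e f (2 / 5) (-(13 / 20))) (ed := pt e f (-(11 / 20)) (-(3 / 10)))
    (nle he hf hef (by norm_num)) (nle he hf hef (by norm_num)) (nle he hf hef (by norm_num))
    (nle he hf hef (by norm_num)) (nle he hf hef (by norm_num))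
    (by rw [pt_add, pt_add, pt_add, pt_add]; norm_num [pt_zero])
    (by rw [pt_add]; exact nle he hf hef (by norm_num))
    (by rw [pt_add]; exact nle he hf hef (by norm_num))
  simp only [P0, P1, P2, P3, P4, inner_pt he hf hef] at k
  norm_num at k
  linarith

theorem c01234 (he : ‖e‖ = 1) (hf : ‖f‖ = 1) (hef : inner ℝ e f = (0 : ℝ)) :
    R e f 0 1 2 3 4 := by
  intro T h
  have k := N5_lower h
    (ea := pt e f (-(3369 / 10000)) (203 / 250))
    (eb := pt e f (5743 / 10000) (497 / 5000)) (em := pt e f (337 / 1000) (-(2029 / 2500)))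
    (ec := pt e f (-(2371 / 10000)) (-(9113 / 10000))) (ed := pt e f (-(3373 / 10000)) (1623 / 2000))
    (nle he hf hef (by norm_num)) (nle he hf hef (by norm_num)) (nle he hf hef (by norm_num))
    (nle he hf hef (by norm_num)) (nle he hf hef (by norm_num))
    (by rw [pt_add, pt_add, pt_add, pt_add]; norm_num [pt_zero])
    (by rw [pt_add]; exact nle he hf hef (by norm_num))
    (by rw [pt_add]; exact nle he hf hef (by norm_num))
  simp only [P0, P1, P2, P3, P4, inner_pt he hf hef] at k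
  norm_num at k
  linarith

theorem c03214 (he : ‖e‖ = 1) (hf : ‖f‖ = 1) (hef : inner ℝ e f = (0 : ℝ)) :
    R e f 0 3 2 1 4 := by
  intro T h
  have k := N5_lower h
    (ea := pt e f 0 1)
    (eb := pt e f (-(3 / 10)) (-(7 / 10))) (em := pt e f (3 / 10) (-(4 / 5)))
    (ec := pt e f (1 / 2) (3 / 10)) (ed := pt e f (-(1 / 2)) (1 / 5))
    (nle he hf hef (by norm_num)) (nle he hf hef (by norm_num)) (nle he hf hef (by norm_num))
    (nle he hf hef (by norm_num)) (nle he hf hef (by norm_num))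
    (by rw [pt_add, pt_add, pt_add, pt_add]; norm_num [pt_zero])
    (by rw [pt_add]; exact nle he hf hef (by norm_num))
    (by rw [pt_add]; exact nle he hf hef (by norm_num))
  simp only [P0, P1, P2, P3, P4, inner_pt he hf hef] at k
  norm_num at k
  linarith

theorem c04213 (he : ‖e‖ = 1) (hf : ‖f‖ = 1) (hef : inner ℝ e f = (0 : ℝ)) :
    R e f 0 4 2 1 3 := by
  intro T h
  have k := N5_lower h
    (ea := pt e f (1 / 5) (9 / 10))
    (eb := pt e f (-(1 / 2)) (-(1 / 10))) (em := pt e f (3 / 10) (-(4 / 5)))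
    (ec := pt e f (1 / 2) (1 / 2)) (ed := pt e f (-(1 / 2)) (-(1 / 2)))
    (nle he hf hef (by norm_num)) (nle he hf hef (by norm_num)) (nle he hf hef (by norm_num))
    (nle he hf hef (by norm_num)) (nle he hf hef (by norm_num))
    (by rw [pt_add, pt_add, pt_add, pt_add]; norm_num [pt_zero])
    (by rw [pt_add]; exact nle he hf hef (by norm_num))
    (by rw [pt_add]; exact nle he hf hef (by norm_num))
  simp only [P0, P1, P2, P3, P4, inner_pt he hf hef] at k
  norm_num at k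
  linarith

theorem c01324 (he : ‖e‖ = 1) (hf : ‖f‖ = 1) (hef : inner ℝ e f = (0 : ℝ)) :
    R e f 0 1 3 2 4 := by
  intro T h
  have k := N5_lower h
    (ea := pt e f (-(1 / 5)) (9 / 10))
    (eb := pt e f (1 / 2) (-(1 / 10))) (em := pt e f (-(3 / 10)) (-(4 / 5)))
    (ec := pt e f (1 / 2) (-(1 / 2))) (ed := pt e f (-(1 / 2)) (1 / 2))
    (nle he hf hef (by norm_num)) (nle he hf hef (by norm_num)) (nle he hf hef (by norm_num))
    (nle he hf hef (by norm_num)) (nle he hf hef (by norm_num))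
    (by rw [pt_add, pt_add, pt_add, pt_add]; norm_num [pt_zero])
    (by rw [pt_add]; exact nle he hf hef (by norm_num))
    (by rw [pt_add]; exact nle he hf hef (by norm_num))
  simp only [P0, P1, P2, P3, P4, inner_pt he hf hef] at k
  norm_num at k
  linarith

theorem c02314 (he : ‖e‖ = 1) (hf : ‖f‖ = 1) (hef : inner ℝ e f = (0 : ℝ)) :
    R e f 0 2 3 1 4 := by
  intro T h
  have k := N5_lower h
    (ea := pt e f 0 1)
    (eb := pt e f (3 / 10) (-(7 / 10))) (em := pt e f (-(3 / 10)) (-(4 / 5)))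
    (ec := pt e f (1 / 2) (1 / 5)) (ed := pt e f (-(1 / 2)) (3 / 10))
    (nle he hf hef (by norm_num)) (nle he hf hef (by norm_num)) (nle he hf hef (by norm_num))
    (nle he hf hef (by norm_num)) (nle he hf hef (by norm_num))
    (by rw [pt_add, pt_add, pt_add, pt_add]; norm_num [pt_zero])
    (by rw [pt_add]; exact nle he hf hef (by norm_num))
    (by rw [pt_add]; exact nle he hf hef (by norm_num))
  simp only [P0, P1, P2, P3, P4, inner_pt he hf hef] at k
  norm_num at k
  linarith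

theorem c04312 (he : ‖e‖ = 1) (hf : ‖f‖ = 1) (hef : inner ℝ e f = (0 : ℝ)) :
    R e f 0 4 3 1 2 := by
  intro T h
  have k := N5_lower h
    (ea := pt e f (3369 / 10000) (203 / 250))
    (eb := pt e f (-(5743 / 10000)) (497 / 5000)) (em := pt e f (-(337 / 1000)) (-(2029 / 2500)))
    (ec := pt e f (3373 / 10000) (1623 / 2000)) (ed := pt e f (2371 / 10000) (-(9113 / 10000)))
    (nle he hf hef (by norm_num)) (nle he hf hef (by norm_num)) (nle he hf hef (by norm_num))
    (nle he hf hef (by norm_num)) (nle he hf hef (by norm_num))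
    (by rw [pt_add, pt_add, pt_add, pt_add]; norm_num [pt_zero])
    (by rw [pt_add]; exact nle he hf hef (by norm_num))
    (by rw [pt_add]; exact nle he hf hef (by norm_num))
  simp only [P0, P1, P2, P3, P4, inner_pt he hf hef] at k
  norm_num at k
  linarith

theorem c01423 (he : ‖e‖ = 1) (hf : ‖f‖ = 1) (hef : inner ℝ e f = (0 : ℝ)) :
    R e f 0 1 4 2 3 := by
  intro T h
  have k := N5_lower h
    (ea := pt e f (-(3 / 20)) (19 / 20))
    (eb := pt e f (11 / 20) (-(3 / 10))) (em := pt e f (-(11 / 20)) (3 / 10))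
    (ec := pt e f (11 / 20) (-(3 / 10))) (ed := pt e f (-(2 / 5)) (-(13 / 20)))
    (nle he hf hef (by norm_num)) (nle he hf hef (by norm_num)) (nle he hf hef (by norm_num))
    (nle he hf hef (by norm_num)) (nle he hf hef (by norm_num))
    (by rw [pt_add, pt_add, pt_add, pt_add]; norm_num [pt_zero])
    (by rw [pt_add]; exact nle he hf hef (by norm_num))
    (by rw [pt_add]; exact nle he hf hef (by norm_num))
  simp only [P0, P1, P2, P3, P4, inner_pt he hf hef] at k
  norm_num at k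
  linarith

theorem c02413 (he : ‖e‖ = 1) (hf : ‖f‖ = 1) (hef : inner ℝ e f = (0 : ℝ)) :
    R e f 0 2 4 1 3 := by
  intro T h
  have k := N5_lower h
    (ea := pt e f 0 1)
    (eb := pt e f (3 / 10) (-(4 / 5))) (em := pt e f (-(1 / 2)) (1 / 5))
    (ec := pt e f (1 / 2) (3 / 10)) (ed := pt e f (-(3 / 10)) (-(7 / 10)))
    (nle he hf hef (by norm_num)) (nle he hf hef (by norm_num)) (nle he hf hef (by norm_num))
    (nle he hf hef (by norm_num)) (nle he hf hef (by norm_num))
    (by rw [pt_add, pt_add, pt_add, pt_add]; norm_num [pt_zero])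
    (by rw [pt_add]; exact nle he hf hef (by norm_num))
    (by rw [pt_add]; exact nle he hf hef (by norm_num))
  simp only [P0, P1, P2, P3, P4, inner_pt he hf hef] at k
  norm_num at k
  linarith

theorem c03412 (he : ‖e‖ = 1) (hf : ‖f‖ = 1) (hef : inner ℝ e f = (0 : ℝ)) :
    R e f 0 3 4 1 2 := by
  intro T h
  have k := N5_lower h
    (ea := pt e f (9 / 50) (47 / 50))
    (eb := pt e f (-(9 / 50)) (-(23 / 25))) (em := pt e f (-(27 / 50)) (13 / 50))
    (ec := pt e f (21 / 50) (16 / 25)) (ed := pt e f (3 / 25) (-(23 / 25)))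
    (nle he hf hef (by norm_num)) (nle he hf hef (by norm_num)) (nle he hf hef (by norm_num))
    (nle he hf hef (by norm_num)) (nle he hf hef (by norm_num))
    (by rw [pt_add, pt_add, pt_add, pt_add]; norm_num [pt_zero])
    (by rw [pt_add]; exact nle he hf hef (by norm_num))
    (by rw [pt_add]; exact nle he hf hef (by norm_num))
  simp only [P0, P1, P2, P3, P4, inner_pt he hf hef] at k
  norm_num at k
  linarith

/-- the fifteen types -/
def L15 : List (Fin 5 × Fin 5 × Fin 5 × Fin 5 × Fin 5) :=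
  [(1, 2, 0, 3, 4), (1, 3, 0, 2, 4), (1, 4, 0, 2, 3), (0, 2, 1, 3, 4), (0, 3, 1, 2, 4), (0, 4, 1,
  2, 3), (0, 1, 2, 3, 4), (0, 3, 2, 1, 4), (0, 4, 2, 1, 3), (0, 1, 3, 2, 4), (0, 2, 3, 1, 4), (0,
  4, 3, 1, 2), (0, 1, 4, 2, 3), (0, 2, 4, 1, 3), (0, 3, 4, 1, 2)]

theorem mem_L15 : ∀ a b m c k : Fin 5, a < b → c < k → a < c → m ≠ a → m ≠ b → m ≠ c → m ≠ k →
    b ≠ c → b ≠ k → (a, b, m, c, k) ∈ L15 := by decide +kernel

theorem base (he : ‖e‖ = 1) (hf : ‖f‖ = 1) (hef : inner ℝ e f = (0 : ℝ)) :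
    ∀ q ∈ L15, R e f q.1 q.2.1 q.2.2.1 q.2.2.2.1 q.2.2.2.2 := by
  intro q hq
  simp only [L15, List.mem_cons, List.not_mem_nil, or_false] at hq
  rcases hq with rfl | rfl | rfl | rfl | rfl | rfl | rfl | rfl | rfl | rfl | rfl | rfl | rfl | rfl | rfl
  exacts [c12034 he hf hef, c13024 he hf hef, c14023 he hf hef, c02134 he hf hef, c03124 he hf hef,
    c04123 he hf hef, c01234 he hf hef, c03214 he hf hef, c04213 he hf hef, c01324 he hf hef,
    c02314 he hf hef, c04312 he hf hef, c01423 he hf hef, c02413 he hf hef, c03412 he hf hef]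

theorem R_of_lt (he : ‖e‖ = 1) (hf : ‖f‖ = 1) (hef : inner ℝ e f = (0 : ℝ)) {a b m c k : Fin 5}
    (h1 : a < b) (h2 : c < k) (h3 : a < c) (h4 : m ≠ a) (h5 : m ≠ b) (h6 : m ≠ c) (h7 : m ≠ k)
    (h8 : b ≠ c) (h9 : b ≠ k) : R e f a b m c k :=
  base he hf hef (a, b, m, c, k) (mem_L15 a b m c k h1 h2 h3 h4 h5 h6 h7 h8 h9)

theorem R_of_lt2 (he : ‖e‖ = 1) (hf : ‖f‖ = 1) (hef : inner ℝ e f = (0 : ℝ)) {a b m c k : Fin 5}
    (h1 : a < b) (h2 : c < k) (h3 : a ≠ c) (h3' : a ≠ k) (h4 : m ≠ a) (h5 : m ≠ b) (h6 : m ≠ c)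
    (h7 : m ≠ k) (h8 : b ≠ c) (h9 : b ≠ k) : R e f a b m c k := by
  rcases lt_or_gt_of_ne h3 with h | h
  · exact R_of_lt he hf hef h1 h2 h h4 h5 h6 h7 h8 h9
  · intro T hT
    exact R_of_lt he hf hef h2 h1 h h6 h7 h4 h5 h3'.symm h9.symm T hT.sw3

theorem R_all (he : ‖e‖ = 1) (hf : ‖f‖ = 1) (hef : inner ℝ e f = (0 : ℝ)) {a b m c k : Fin 5}
    (h1 : a ≠ b) (h2 : c ≠ k) (h3 : a ≠ c) (h3' : a ≠ k) (h4 : m ≠ a) (h5 : m ≠ b) (h6 : m ≠ c)
    (h7 : m ≠ k) (h8 : b ≠ c) (h9 : b ≠ k) : R e f a b m c k := by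
  intro T hT
  rcases lt_or_gt_of_ne h1 with h | h <;> rcases lt_or_gt_of_ne h2 with h' | h'
  · exact R_of_lt2 he hf hef h h' h3 h3' h4 h5 h6 h7 h8 h9 T hT
  · exact R_of_lt2 he hf hef h h' h3' h3 h4 h5 h7 h6 h9 h8 T hT.sw2
  · exact R_of_lt2 he hf hef h h' h8 h9 h5 h4 h6 h7 h3 h3' T hT.sw1
  · exact R_of_lt2 he hf hef h h' h9 h8 h5 h4 h7 h6 h3' h3 T hT.sw1.sw2

theorem J5_le (he : ‖e‖ = 1) (hf : ‖f‖ = 1) (hef : inner ℝ e f = (0 : ℝ)) (T : ℝ)
    (h : J5 (P e f) T) : 2263 / 500 ≤ T := by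
  obtain ⟨σ, hσ⟩ := h
  have n : ∀ i j : Fin 5, i ≠ j → σ i ≠ σ j := fun i j hij => σ.injective.ne hij
  exact R_all he hf hef (n 0 1 (by decide)) (n 3 4 (by decide)) (n 0 3 (by decide))
    (n 0 4 (by decide)) (n 2 0 (by decide)) (n 2 1 (by decide)) (n 2 3 (by decide))
    (n 2 4 (by decide)) (n 1 3 (by decide)) (n 1 4 (by decide)) T hσ

theorem low : P5_LOW := by
  intro d e f he hf hef T hT hTA
  by_cases hfin : μH[1] T = ∞
  · rw [hfin]; exact le_top
  have hAf : (range (P e f)).Finite := finite_range _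
  have hX : μH[1] (T ∪ range (P e f)) ≤ μH[1] T := by
    refine (measure_union_le _ _).trans ?_
    rw [fin_measure_zero hAf, add_zero]
  have hXfin : μH[1] (T ∪ range (P e f)) ≠ ∞ := ne_top_of_le_ne_top hfin hX
  refine le_trans ?_ hX
  rw [ENNReal.ofReal_le_iff_le_toReal hXfin]
  exact five_lower hTA.isPreconnected (hT.union hAf.isClosed) hXfin (p := P e f)
    (fun i => Or.inr (mem_range_self i)) (J5_le he hf hef)

end P5
end H11ST
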