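import Pool.Agent.H11ST.Square
open MeasureTheory Metric Set Filter Topology
open scoped ENNReal NNReal

/-!
# P5: three branching points, `N_d(t) ≥ 3` for `t ≥ 585 / 1000`

Five terminals (four of them just outside the unit circle), the full Steiner tree with three
tripod points of norm `< 585 / 1000`, length `2263 / 500`. Coordinates `pt x y = √3 x e + y f`.
-/

namespace H11ST
namespace P5

variable {d : ℕ}

/-- coordinates -/
noncomputable def pt (e f : E d) (x y : ℝ) : E d := vec e f (√3 * x) y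

/-- the terminals -/
noncomputable def P (e f : E d) : Fin 5 → E d :=
  ![pt e f 0 1, pt e f (11291 / 20000) (4191 / 20000), pt e f (27 / 80) (-(4057 / 5000)),
    pt e f (-(27 / 80)) (-(4057 / 5000)), pt e f (-(11291 / 20000)) (4191 / 20000)]

/-- the tripod points -/
noncomputable def s0 (e f : E d) : E d := pt e f 0 (8 / 25)
noncomputable def s1 (e f : E d) : E d := pt e f (27 / 80) (-(7 / 400))
noncomputable def s2 (e f : E d) : E d := pt e f (-(27 / 80)) (-(7 / 400))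

/-- the tree -/
def T5 (e f : E d) : Set (E d) :=
  segment ℝ (s0 e f) (P e f 0) ∪ segment ℝ (s0 e f) (s1 e f) ∪ segment ℝ (s0 e f) (s2 e f) ∪
    segment ℝ (s1 e f) (P e f 1) ∪ segment ℝ (s1 e f) (P e f 2) ∪
    segment ℝ (s2 e f) (P e f 3) ∪ segment ℝ (s2 e f) (P e f 4)

/-- (LOW) every connected set through the five points has length `≥ 2263 / 500` -/
def P5_LOW : Prop := ∀ (d : ℕ) (e f : E d), ‖e‖ = 1 → ‖f‖ = 1 → inner ℝ e f = (0 : ℝ) →
  ∀ T : Set (E d), IsClosed T → IsConnected (T ∪ range (P e f)) →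
  ENNReal.ofReal (2263 / 500) ≤ μH[1] T

/-- (TREE) the tree: closed, connected, through the five points, of length `≤ 2263 / 500`
(`s0 P0`: 17/25; `s0 s1`, `s0 s2`: 27/40; `s1 P1`, `s2 P4`: 4541/10000; `s1 P2`, `s2 P3`:
7939/10000), three branching points of norm `< 585 / 1000`; all points of `P` have norm `≥ 1`.
Cf. `H11ST.two_le_N'` (`tri_of_segments`) -/
def P5_TREE : Prop := ∀ (d : ℕ) (e f : E d), ‖e‖ = 1 → ‖f‖ = 1 → inner ℝ e f = (0 : ℝ) →
  IsClosed (T5 e f) ∧ IsConnected (T5 e f) ∧ range (P e f) ⊆ T5 e f ∧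
  μH[1] (T5 e f) ≤ ENNReal.ofReal (2263 / 500) ∧ (∀ i, 1 ≤ ‖P e f i‖) ∧
  s0 e f ≠ s1 e f ∧ s0 e f ≠ s2 e f ∧ s1 e f ≠ s2 e f ∧
  ∀ y ∈ ({s0 e f, s1 e f, s2 e f} : Set (E d)), ‖y‖ < 585 / 1000 ∧
    IsBranchingPoint (range (P e f)) (T5 e f) y

/-- (FIN) -/
def P5_FIN : Prop := ∀ (d : ℕ), 2 ≤ d → ∀ t : ℝ, 585 / 1000 ≤ t → 3 ≤ N d t

end P5
end H11ST
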